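import Pool.Agent.helper62.DP8.Spec

set_option autoImplicit false

namespace Pool.Agent.helper62.DP8

theorem ABC_tight (W : Type) (a : ℕ → Finset W) (t : ℕ → Bool → W → Prop) (h : Tight W a t) (k : ℕ) :
    Tight W (fun i => a (i + k)) (fun i => t (i + k)) := by
  refine ⟨?_, ?_⟩
  · intro i j s hij hji
    obtain ⟨x, hx, hxt⟩ := h.ex (i + k) (j + k) s (by omega) (by omega)
    refine ⟨x, ?_, hxt⟩
    show x ∈ a (i + 1 + k)
    have e : i + 1 + k = i + k + 1 := by omega
    rw [e]; exact hx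
  · intro i x hx j j' s s' h1 h2 h3 h4 h5 h6
    have hx' : x ∈ a (i + 1 + k) := hx
    have e : i + 1 + k = i + k + 1 := by omega
    rw [e] at hx'
    obtain ⟨r1, r2⟩ := h.un (i + k) x hx' (j + k) (j' + k) s s' (by omega) (by omega) (by omega) (by omega) h5 h6
    exact ⟨by omega, r2⟩

theorem ABC (hSHF : SHF_stmt) (hAA1 : AA1_stmt) (hAA2 : AA2_stmt) (hPRT : PRT_stmt) (hBCH : BCH_stmt)
    (hBFI : BFI_stmt) (hBB1 : BB1_stmt) (hBB2 : BB2_stmt) (hBB3 : BB3_stmt) : ABC_stmt := by
  intro g W a R t hC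
  have hg := hC.g5
  by_cases h1 : ∀ i, ∀ x ∈ a (i + 1), ∃ j s, i ≤ j ∧ j ≤ i + 2 ∧ t j s x
  · have hT : Tight W a t := hPRT g W a R t hC h1
    by_cases h2 : ∀ i v, ∀ x ∈ a (i + 1), ∀ y ∈ a (i + 2), t (i + 2) v x → t (i + 2) v y → R x y
    · by_cases h3 : ∀ i v, ∀ x ∈ a (i + 1), ∀ z ∈ a (i + 3), t (i + 2) v x → t (i + 2) v z → R x z
      · exact hBB3 g W a R t hC hT h2 h3
      · push Not at h3
        obtain ⟨i, v, x, hx, z, hz, hxt, hzt, hR⟩ := h3
        obtain ⟨hC', hA⟩ := hSHF g W a R t i hC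
        apply hA
        have hT' := ABC_tight W a t hT i
        have e1 : 1 + i = i + 1 := by omega
        have e2 : 2 + i = i + 2 := by omega
        have e3 : 3 + i = i + 3 := by omega
        obtain ⟨c, hc⟩ := hBB2 g W _ R _ hC' hT' v x (by show x ∈ a (1 + i); rw [e1]; exact hx) z
          (by show z ∈ a (3 + i); rw [e3]; exact hz) (by show t (2 + i) v x; rw [e2]; exact hxt)
          (by show t (2 + i) v z; rw [e2]; exact hzt) hR
          (by
            intro y hy hyt
            have hy' : y ∈ a (2 + i) := hy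
            have hyt' : t (2 + i) v y := hyt
            rw [e2] at hy' hyt'
            exact h2 i v x hx y hy' hxt hyt')
        obtain ⟨c', hc'⟩ := hBCH g W _ R _ hC' 3 c (by omega) (by omega) hc
        exact hBFI g W _ R _ hC' hT' c' hc'
    · push Not at h2
      obtain ⟨i, v, x, hx, y, hy, hxt, hyt, hR⟩ := h2
      obtain ⟨hC', hA⟩ := hSHF g W a R t i hC
      apply hA
      have hT' := ABC_tight W a t hT i
      have e1 : 1 + i = i + 1 := by omega
      have e2 : 2 + i = i + 2 := by omega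
      obtain ⟨c, hc⟩ := hBB1 g W _ R _ hC' hT' v x (by show x ∈ a (1 + i); rw [e1]; exact hx) y
        (by show y ∈ a (2 + i); rw [e2]; exact hy) (by show t (2 + i) v x; rw [e2]; exact hxt)
        (by show t (2 + i) v y; rw [e2]; exact hyt) hR
      obtain ⟨c', hc'⟩ := hBCH g W _ R _ hC' 2 c (by omega) (by omega) hc
      exact hBFI g W _ R _ hC' hT' c' hc'
  · push Not at h1
    obtain ⟨i, φ, hφ, hn⟩ := h1
    obtain ⟨hC', hA⟩ := hSHF g W a R t (i + 1) hC
    apply hA
    have e0 : 0 + (i + 1) = i + 1 := by omega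
    have e1 : 1 + (i + 1) = i + 2 := by omega
    have eg : g - 1 + (i + 1) = i + g := by omega
    have hφ' : φ ∈ (fun j => a (j + (i + 1))) 0 := by
      show φ ∈ a (0 + (i + 1)); rw [e0]; exact hφ
    have hφt : ∀ s, ¬ (fun j => t (j + (i + 1))) (g - 1) s φ ∧ ¬ (fun j => t (j + (i + 1))) 0 s φ ∧
        ¬ (fun j => t (j + (i + 1))) 1 s φ := by
      intro s
      refine ⟨?_, ?_, ?_⟩
      · show ¬ t (g - 1 + (i + 1)) s φ
        rw [eg, hC.pt]
        exact hn i s le_rfl (by omega)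
      · show ¬ t (0 + (i + 1)) s φ
        rw [e0]
        exact hn (i + 1) s (by omega) (by omega)
      · show ¬ t (1 + (i + 1)) s φ
        rw [e1]
        exact hn (i + 2) s (by omega) le_rfl
    obtain ⟨c, hc0, hc⟩ := hAA1 g W _ R _ hC' φ hφ' hφt
    refine hAA2 g W _ R _ hC' c ?_ ?_ hc
    · rw [hc0]; exact hφ'
    · rw [hc0]; exact hφt

end Pool.Agent.helper62.DP8
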